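import Pool.Agent.TH931.LP.StmD

/-!
# Normal forms of Hanner polytopes (job LP931-E1)
-/

set_option autoImplicit false

open Set

noncomputable section

namespace Pool.Agent.TH429.LP931

open Pool.Agent.TH931.LP

section gen

variable {V W V' W' X : Type} [AddCommGroup V] [Module ℝ V] [AddCommGroup W] [Module ℝ W]
  [AddCommGroup V'] [Module ℝ V'] [AddCommGroup W'] [Module ℝ W'] [AddCommGroup X] [Module ℝ X]

/-- linear equivalence of sets -/
def E (A : Set V) (B : Set W) : Prop := ∃ e : V ≃ₗ[ℝ] W, e '' A = B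

theorem E.rfl (A : Set V) : E A A := ⟨LinearEquiv.refl ℝ V, by simp⟩

theorem E.symm {A : Set V} {B : Set W} (h : E A B) : E B A := by
  obtain ⟨e, rfl⟩ := h
  refine ⟨e.symm, ?_⟩
  rw [← Set.image_comp]
  ext x
  simp

theorem E.trans {A : Set V} {B : Set W} {C : Set X} (h : E A B) (h' : E B C) : E A C := by
  obtain ⟨e, rfl⟩ := h
  obtain ⟨f, rfl⟩ := h'
  refine ⟨e.trans f, ?_⟩
  rw [← Set.image_comp]
  rfl

theorem E.prod {A : Set V} {B : Set W} {A' : Set V'} {B' : Set W'} (h : E A A') (h' : E B B') :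
    E (A ×ˢ B) (A' ×ˢ B') := by
  obtain ⟨e, rfl⟩ := h
  obtain ⟨f, rfl⟩ := h'
  refine ⟨e.prodCongr f, ?_⟩
  ext ⟨x, y⟩
  constructor
  · rintro ⟨⟨a, b⟩, ⟨ha, hb⟩, h⟩
    simp only [LinearEquiv.prodCongr_apply, Prod.mk.injEq] at h
    obtain ⟨rfl, rfl⟩ := h
    exact ⟨⟨a, ha, by rfl⟩, ⟨b, hb, by rfl⟩⟩
  · rintro ⟨⟨a, ha, h1⟩, ⟨b, hb, h2⟩⟩
    exact ⟨(a, b), ⟨ha, hb⟩, by simp only [LinearEquiv.prodCongr_apply]; exact Prod.ext h1 h2⟩

theorem E.comm (A : Set V) (B : Set W) : E (A ×ˢ B) (B ×ˢ A) := by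
  refine ⟨LinearEquiv.prodComm ℝ V W, ?_⟩
  ext ⟨x, y⟩
  constructor
  · rintro ⟨⟨a, b⟩, ⟨ha, hb⟩, h⟩
    simp only [LinearEquiv.prodComm_apply, Prod.swap_prod_mk, Prod.mk.injEq] at h
    obtain ⟨rfl, rfl⟩ := h
    exact ⟨hb, ha⟩
  · rintro ⟨h1, h2⟩
    exact ⟨(y, x), ⟨h2, h1⟩, by simp⟩

theorem E.assoc (A : Set V) (B : Set W) (C : Set X) : E ((A ×ˢ B) ×ˢ C) (A ×ˢ (B ×ˢ C)) := by
  refine ⟨LinearEquiv.prodAssoc ℝ V W X, ?_⟩
  ext ⟨x, y, z⟩
  constructor
  · rintro ⟨⟨⟨a, b⟩, c⟩, ⟨⟨ha, hb⟩, hc⟩, h⟩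
    simp only [LinearEquiv.prodAssoc_apply] at h
    obtain ⟨rfl, rfl, rfl⟩ := h
    exact ⟨ha, hb, hc⟩
  · rintro ⟨h1, h2, h3⟩
    exact ⟨((x, y), z), ⟨⟨h1, h2⟩, h3⟩, by simp⟩

/-- the free sum -/
def Su (A : Set V) (B : Set W) : Set (V × W) :=
  convexHull ℝ ({x | x.1 ∈ A ∧ x.2 = 0} ∪ {x | x.1 = 0 ∧ x.2 ∈ B})

theorem E.hull {A : Set V} {B : Set W} (e : V ≃ₗ[ℝ] W) (h : e '' A = B) :
    e '' (convexHull ℝ A) = convexHull ℝ B := by
  rw [← h]
  exact e.toLinearMap.isLinear.image_convexHull A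

theorem E.sum {A : Set V} {B : Set W} {A' : Set V'} {B' : Set W'} (h : E A A') (h' : E B B') :
    E (Su A B) (Su A' B') := by
  obtain ⟨e, rfl⟩ := h
  obtain ⟨f, rfl⟩ := h'
  refine ⟨e.prodCongr f, E.hull _ ?_⟩
  ext ⟨x, y⟩
  constructor
  · rintro ⟨⟨a, b⟩, h, h'⟩
    simp only [LinearEquiv.prodCongr_apply, Prod.mk.injEq] at h'
    obtain ⟨rfl, rfl⟩ := h'
    rcases h with ⟨h1, h2⟩ | ⟨h1, h2⟩
    · left
      refine ⟨⟨a, h1, by rfl⟩, ?_⟩
      simp only at h2
      simp [h2]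
    · right
      refine ⟨?_, ⟨b, h2, by rfl⟩⟩
      simp only at h1
      simp [h1]
  · rintro (⟨⟨a, ha, h1⟩, h2⟩ | ⟨h1, ⟨b, hb, h2⟩⟩)
    · refine ⟨(a, 0), Or.inl ⟨ha, by simp⟩, ?_⟩
      simp only [LinearEquiv.prodCongr_apply, map_zero]
      exact Prod.ext h1 h2.symm
    · refine ⟨(0, b), Or.inr ⟨by simp, hb⟩, ?_⟩
      simp only [LinearEquiv.prodCongr_apply, map_zero]
      exact Prod.ext h1.symm h2

end gen

/-- the splitting -/
def J (a b : ℕ) : (Fin (a + b) → ℝ) ≃ₗ[ℝ] (Fin a → ℝ) × (Fin b → ℝ) :=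
  (Pool.Agent.TH580.HL.app a b).symm

theorem J_apply (a b : ℕ) (x : Fin (a + b) → ℝ) : J a b x = (p1 x, p2 x) := rfl

theorem J_image (a b : ℕ) (A : Set ((Fin a → ℝ) × (Fin b → ℝ))) :
    J a b '' {x | (p1 x, p2 x) ∈ A} = A := by
  ext y
  constructor
  · rintro ⟨x, hx, rfl⟩
    exact hx
  · intro hy
    refine ⟨(J a b).symm y, ?_, by simp⟩
    have : (p1 ((J a b).symm y), p2 ((J a b).symm y)) = y := by
      rw [← J_apply]; simp
    show (p1 ((J a b).symm y), p2 ((J a b).symm y)) ∈ A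
    rw [this]
    exact hy

theorem E_prod {a b : ℕ} (A : Set (Fin a → ℝ)) (B : Set (Fin b → ℝ)) :
    E {x : Fin (a + b) → ℝ | p1 x ∈ A ∧ p2 x ∈ B} (A ×ˢ B) :=
  ⟨J a b, J_image a b (A ×ˢ B)⟩

theorem E_sum {a b : ℕ} (A : Set (Fin a → ℝ)) (B : Set (Fin b → ℝ)) :
    E (convexHull ℝ ({x : Fin (a + b) → ℝ | p1 x ∈ A ∧ p2 x = 0} ∪
      {x : Fin (a + b) → ℝ | p1 x = 0 ∧ p2 x ∈ B})) (Su A B) :=
  ⟨J a b, E.hull _ (J_image a b ({x | x.1 ∈ A ∧ x.2 = 0} ∪ {x | x.1 = 0 ∧ x.2 ∈ B}))⟩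

/-- the cube -/
def Q (ι : Type) : Set (ι → ℝ) := Icc (-1) 1

theorem mem_Q {ι : Type} (x : ι → ℝ) : x ∈ Q ι ↔ ∀ i, x i ∈ Icc (-1 : ℝ) 1 := by
  simp only [Q, Set.mem_Icc, Pi.le_def, Pi.neg_apply, Pi.one_apply]
  exact ⟨fun h i => ⟨h.1 i, h.2 i⟩, fun h => ⟨fun i => (h i).1, fun i => (h i).2⟩⟩

theorem E_cube (c c' : ℕ) : E (Q (Fin (c + 1)) ×ˢ Q (Fin (c' + 1))) (Q (Fin (c + c' + 1 + 1))) := by
  have h1 : E {x : Fin ((c + 1) + (c' + 1)) → ℝ | p1 x ∈ Q (Fin (c + 1)) ∧ p2 x ∈ Q (Fin (c' + 1))}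
      (Q (Fin (c + 1)) ×ˢ Q (Fin (c' + 1))) := E_prod _ _
  have h2 : {x : Fin ((c + 1) + (c' + 1)) → ℝ | p1 x ∈ Q (Fin (c + 1)) ∧ p2 x ∈ Q (Fin (c' + 1))} =
      Q (Fin ((c + 1) + (c' + 1))) := by
    ext x
    rw [Set.mem_ofPred_eq, mem_Q, mem_Q, mem_Q]
    constructor
    · rintro ⟨h, h'⟩ i
      induction i using Fin.addCases with
      | left i => exact h i
      | right i => exact h' i
    · intro h
      exact ⟨fun i => h _, fun i => h _⟩
  rw [h2] at h1
  have h3 : (c + 1) + (c' + 1) = c + c' + 1 + 1 := by ring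
  rw [h3] at h1
  exact h1.symm

theorem E_sq : E (Su (Q (Fin (0 + 1))) (Q (Fin (0 + 1)))) (Q (Fin (1 + 1))) := by
  let f : (Fin (0 + 1) → ℝ) × (Fin (0 + 1) → ℝ) →ₗ[ℝ] (Fin (1 + 1) → ℝ) :=
    { toFun := fun x => ![x.1 0 + x.2 0, x.1 0 - x.2 0]
      map_add' := by
        intro x y
        funext i
        fin_cases i
        · simp; ring
        · simp; ring
      map_smul' := by
        intro t x
        funext i
        fin_cases i
        · simp; ring
        · simp; ring }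
  let g : (Fin (1 + 1) → ℝ) →ₗ[ℝ] (Fin (0 + 1) → ℝ) × (Fin (0 + 1) → ℝ) :=
    { toFun := fun x => (fun _ => (x 0 + x 1) / 2, fun _ => (x 0 - x 1) / 2)
      map_add' := by
        intro x y
        refine Prod.ext ?_ ?_
        · funext i
          simp; ring
        · funext i
          simp; ring
      map_smul' := by
        intro t x
        refine Prod.ext ?_ ?_
        · funext i
          simp; ring
        · funext i
          simp; ring }
  have hfg : f ∘ₗ g = LinearMap.id := by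
    refine LinearMap.ext fun x => ?_
    funext i
    fin_cases i
    · simp [f, g]; ring
    · simp [f, g]; ring
  have hgf : g ∘ₗ f = LinearMap.id := by
    refine LinearMap.ext fun x => ?_
    refine Prod.ext ?_ ?_
    · funext i
      have hi : i = 0 := Fin.ext (by have := i.2; simp)
      subst hi
      simp [f, g]
    · funext i
      have hi : i = 0 := Fin.ext (by have := i.2; simp)
      subst hi
      simp [f, g]
  let e : ((Fin (0 + 1) → ℝ) × (Fin (0 + 1) → ℝ)) ≃ₗ[ℝ] (Fin (1 + 1) → ℝ) :=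
    LinearEquiv.ofLinearMap f g hfg hgf
  have he : ∀ x, e x = ![x.1 0 + x.2 0, x.1 0 - x.2 0] := fun x => rfl
  refine ⟨e, ?_⟩
  apply Set.Subset.antisymm
  · have h1 : convexHull ℝ (({x | x.1 ∈ Q (Fin (0 + 1)) ∧ x.2 = 0} ∪
        {x | x.1 = 0 ∧ x.2 ∈ Q (Fin (0 + 1))} :
          Set ((Fin (0 + 1) → ℝ) × (Fin (0 + 1) → ℝ)))) ⊆ e ⁻¹' (Q (Fin (1 + 1))) := by
      refine convexHull_min ?_ ?_
      · rintro ⟨x, y⟩ (⟨h1, h2⟩ | ⟨h1, h2⟩)
        · simp only at h1 h2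
          subst h2
          rw [mem_Q] at h1
          have := h1 0
          rw [Set.mem_preimage, he, mem_Q]
          intro i
          fin_cases i
          · simpa using this
          · simpa using this
        · simp only at h1 h2
          subst h1
          rw [mem_Q] at h2
          have := h2 0
          rw [Set.mem_preimage, he, mem_Q]
          intro i
          fin_cases i
          · simpa using this
          · simp only [Set.mem_Icc] at this ⊢
            simp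
            constructor <;> linarith [this.1, this.2]
      · exact (convex_Icc _ _).linear_preimage e.toLinearMap
    rw [Set.image_subset_iff]
    exact h1
  · intro x hx
    rw [mem_Q] at hx
    have h0 := hx 0
    have h1 := hx 1
    rw [Set.mem_Icc] at h0 h1
    refine ⟨g x, ?_, by
      have : f (g x) = x := by
        rw [← LinearMap.comp_apply, hfg]; rfl
      exact this⟩
    set u : ℝ := (x 0 + x 1) / 2 with hu
    set w : ℝ := (x 0 - x 1) / 2 with hw
    have hgx : g x = (fun _ => u, fun _ => w) := rfl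
    rw [hgx]
    have huw : |u| + |w| ≤ 1 := by
      rcases abs_cases u with ⟨h2, h3⟩ | ⟨h2, h3⟩ <;> rcases abs_cases w with ⟨h4, h5⟩ | ⟨h4, h5⟩ <;>
        rw [h2, h4] <;> rw [hu, hw] <;> linarith [h0.1, h0.2, h1.1, h1.2]
    have hcv : Convex ℝ (Su (Q (Fin (0 + 1))) (Q (Fin (0 + 1)))) := convex_convexHull ℝ _
    have hs : ∀ s : ℝ, |s| ≤ 1 → ((fun _ => s, 0) : (Fin (0 + 1) → ℝ) × (Fin (0 + 1) → ℝ)) ∈
        Su (Q (Fin (0 + 1))) (Q (Fin (0 + 1))) := by
      intro s hs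
      refine subset_convexHull ℝ _ (Or.inl ⟨?_, rfl⟩)
      rw [mem_Q]
      intro i
      exact abs_le.1 hs
    have ht : ∀ s : ℝ, |s| ≤ 1 → ((0, fun _ => s) : (Fin (0 + 1) → ℝ) × (Fin (0 + 1) → ℝ)) ∈
        Su (Q (Fin (0 + 1))) (Q (Fin (0 + 1))) := by
      intro s hs
      refine subset_convexHull ℝ _ (Or.inr ⟨rfl, ?_⟩)
      rw [mem_Q]
      intro i
      exact abs_le.1 hs
    by_cases hu0 : |u| = 1
    · have hw0 : w = 0 := by
        have : |w| ≤ 0 := by linarith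
        exact abs_eq_zero.1 (le_antisymm this (abs_nonneg _))
      have := hs u hu0.le
      rw [hw0]
      exact this
    · have hu1 : |u| < 1 := by
        rcases lt_or_eq_of_le (show |u| ≤ 1 by linarith [abs_nonneg w]) with h | h
        · exact h
        · exact absurd h hu0
      have hpos : 0 < 1 - |u| := by linarith
      -- x = |u| * (sgn u) + (1 - |u|) * (w / (1 - |u|))
      have h2 := hcv (hs (SignType.sign u : ℝ) (by
          rcases lt_trichotomy u 0 with h | h | h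
          · simp [sign_neg h]
          · simp [h]
          · simp [sign_pos h])) (ht (w / (1 - |u|)) (by
            rw [abs_div, abs_of_pos hpos]
            exact (div_le_one hpos).2 (by linarith))) (abs_nonneg u) hpos.le (by ring)
      have h3 : (|u| • ((fun _ => (SignType.sign u : ℝ), 0) :
            (Fin (0 + 1) → ℝ) × (Fin (0 + 1) → ℝ)) +
          (1 - |u|) • ((0, fun _ => w / (1 - |u|)) : (Fin (0 + 1) → ℝ) × (Fin (0 + 1) → ℝ))) =
          (fun _ => u, fun _ => w) := by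
        refine Prod.ext ?_ ?_
        · funext i
          simp
        · funext i
          simp
          field_simp
      rw [h3] at h2
      exact h2

theorem E_std_prod (a b : NT) : E (NT.prod a b).std (a.std ×ˢ b.std) := E_prod _ _

theorem E_std_sum (a b : NT) : E (NT.sum a b).std (Su a.std b.std) := E_sum _ _

theorem std_cube (c : ℕ) : (NT.cube c).std = Q (Fin (c + 1)) := rfl

theorem E_cc (c c' : ℕ) : E ((NT.cube c).std ×ˢ (NT.cube c').std) (NT.cube (c + c' + 1)).std :=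
  E_cube c c'

/-- the first normalisation: the cube in front -/
theorem front (t : NT) (ht : t.NF) : (∃ c, E t.std (NT.cube c).std) ∨
    (∃ (c : ℕ) (r : NT), r.NF ∧ ¬ r.hasC ∧ E t.std ((NT.cube c).std ×ˢ r.std)) ∨ ¬ t.hasC := by
  induction t with
  | cube c => exact Or.inl ⟨c, E.rfl _⟩
  | sum a b _ _ =>
    refine Or.inr (Or.inr ?_)
    simp [NT.hasC]
  | prod a b iha ihb =>
    obtain ⟨ha, hb, hab⟩ := ht
    by_cases hca : a.hasC
    · have hcb : ¬ b.hasC := fun h => hab ⟨hca, h⟩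
      rcases iha ha with ⟨c, hc⟩ | ⟨c, r, hr, hrc, he⟩ | h
      · exact Or.inr (Or.inl ⟨c, b, hb, hcb, (E_std_prod a b).trans (hc.prod (E.rfl _))⟩)
      · refine Or.inr (Or.inl ⟨c, NT.prod r b, ⟨hr, hb, fun h => hrc h.1⟩, ?_, ?_⟩)
        · rintro (h | h)
          · exact hrc h
          · exact hcb h
        · exact (E_std_prod a b).trans ((he.prod (E.rfl _)).trans ((E.assoc _ _ _).trans
            ((E.rfl _).prod (E_std_prod r b).symm)))
      · exact absurd hca h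
    · by_cases hcb : b.hasC
      · rcases ihb hb with ⟨c, hc⟩ | ⟨c, r, hr, hrc, he⟩ | h
        · exact Or.inr (Or.inl ⟨c, a, ha, hca, (E_std_prod a b).trans
            ((E.comm _ _).trans (hc.prod (E.rfl _)))⟩)
        · refine Or.inr (Or.inl ⟨c, NT.prod r a, ⟨hr, ha, fun h => hrc h.1⟩, ?_, ?_⟩)
          · rintro (h | h)
            · exact hrc h
            · exact hca h
          · exact (E_std_prod a b).trans ((E.comm _ _).trans ((he.prod (E.rfl _)).trans
              ((E.assoc _ _ _).trans ((E.rfl _).prod (E_std_prod r a).symm))))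
        · exact absurd hcb h
      · refine Or.inr (Or.inr ?_)
        rintro (h | h)
        · exact hca h
        · exact hcb h

theorem nf_prod (s t : NT) (hs : s.NF) (ht : t.NF) :
    ∃ u : NT, u.NF ∧ E u.std (s.std ×ˢ t.std) := by
  rcases front s hs with ⟨c, hc⟩ | ⟨c, r, hr, hrc, he⟩ | hn
  · rcases front t ht with ⟨c', hc'⟩ | ⟨c', r', hr', hrc', he'⟩ | hn'
    · exact ⟨NT.cube (c + c' + 1), trivial, (E_cc c c').symm.trans (hc.symm.prod hc'.symm)⟩
    · refine ⟨NT.prod (NT.cube (c + c' + 1)) r', ⟨trivial, hr', fun h => hrc' h.2⟩, ?_⟩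
      exact (E_std_prod _ _).trans (((E_cc c c').symm.prod (E.rfl _)).trans
        ((E.assoc _ _ _).trans (hc.symm.prod he'.symm)))
    · exact ⟨NT.prod s t, ⟨hs, ht, fun h => hn' h.2⟩, E_std_prod _ _⟩
  · rcases front t ht with ⟨c', hc'⟩ | ⟨c', r', hr', hrc', he'⟩ | hn'
    · refine ⟨NT.prod (NT.cube (c' + c + 1)) r, ⟨trivial, hr, fun h => hrc h.2⟩, ?_⟩
      exact (E_std_prod _ _).trans (((E_cc c' c).symm.prod (E.rfl _)).trans
        ((E.assoc _ _ _).trans ((hc'.symm.prod he.symm).trans (E.comm _ _))))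
    · refine ⟨NT.prod (NT.cube (c + c' + 1)) (NT.prod r r'), ⟨trivial, ⟨hr, hr', fun h => hrc h.1⟩,
        fun h => ?_⟩, ?_⟩
      · rcases h.2 with h | h
        · exact hrc h
        · exact hrc' h
      · refine (E_std_prod _ _).trans (((E_cc c c').symm.prod (E_std_prod r r')).trans ?_)
        refine E.trans ?_ (he.symm.prod he'.symm)
        -- (C × C') × (r × r') ~ (C × r) × (C' × r')
        refine (E.assoc _ _ _).trans (E.trans ?_ (E.assoc _ _ _).symm)
        refine (E.rfl _).prod ?_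
        refine (E.assoc _ _ _).symm.trans (E.trans ?_ (E.assoc _ _ _))
        exact (E.comm _ _).prod (E.rfl _)
    · exact ⟨NT.prod s t, ⟨hs, ht, fun h => hn' h.2⟩, E_std_prod _ _⟩
  · exact ⟨NT.prod s t, ⟨hs, ht, fun h => hn h.1⟩, E_std_prod _ _⟩

theorem nf_sum (s t : NT) (hs : s.NF) (ht : t.NF) :
    ∃ u : NT, u.NF ∧ E u.std (Su s.std t.std) := by
  by_cases h : s = NT.cube 0 ∧ t = NT.cube 0
  · obtain ⟨rfl, rfl⟩ := h
    exact ⟨NT.cube 1, trivial, E_sq.symm⟩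
  · exact ⟨NT.sum s t, ⟨hs, ht, h⟩, E_std_sum _ _⟩

theorem nf' (n : ℕ) (K : Set (Fin n → ℝ)) (h : Pool.Agent.TH580.HL.Hanner n K) :
    ∃ t : NT, t.NF ∧ E t.std K := by
  induction h with
  | seg => exact ⟨NT.cube 0, trivial, E.rfl _⟩
  | @prod a b A B _ _ iha ihb =>
    obtain ⟨s, hs, hsA⟩ := iha
    obtain ⟨t, ht, htB⟩ := ihb
    obtain ⟨u, hu, hue⟩ := nf_prod s t hs ht
    exact ⟨u, hu, hue.trans ((hsA.prod htB).trans (E_prod A B).symm)⟩
  | @sum a b A B _ _ iha ihb =>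
    obtain ⟨s, hs, hsA⟩ := iha
    obtain ⟨t, ht, htB⟩ := ihb
    obtain ⟨u, hu, hue⟩ := nf_sum s t hs ht
    have h1 : ({x : Fin (a + b) → ℝ |
            (fun i => x (Fin.castAdd b i)) ∈ A ∧ ∀ j, x (Fin.natAdd a j) = 0} ∪
         {x : Fin (a + b) → ℝ |
            (∀ i, x (Fin.castAdd b i) = 0) ∧ (fun j => x (Fin.natAdd a j)) ∈ B}) =
        ({x : Fin (a + b) → ℝ | p1 x ∈ A ∧ p2 x = 0} ∪
          {x : Fin (a + b) → ℝ | p1 x = 0 ∧ p2 x ∈ B}) := by
      ext x
      simp only [Set.mem_union, Set.mem_ofPred_eq, funext_iff]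
      rfl
    rw [h1]
    exact ⟨u, hu, hue.trans ((hsA.sum htB).trans (E_sum A B).symm)⟩
  | @lin n A e _ ih =>
    obtain ⟨t, ht, he⟩ := ih
    exact ⟨t, ht, he.trans ⟨e, rfl⟩⟩

/-- **every Hanner polytope has a normal form** -/
theorem nf : S_nf := nf'

end Pool.Agent.TH429.LP931
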